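import Pool.Agent.Lib.MP_d55432_al.G2.Iface

/-!
# G2, module TAU: the equivariant map `tau`
-/

namespace Pool.Agent.Lib.MP_d55432_al.G2.H19

open Matrix LieAlgebra

section gen

variable {K : Type*} [Field K]

/-- Gram matrix of `bb`. -/
def Bm (K : Type*) [Field K] : M7 K := !![
  2, 0, 0, 0, 0, 0, 0;
  0, 0, 0, 0, 1, 0, 0;
  0, 0, 0, 0, 0, 1, 0;
  0, 0, 0, 0, 0, 0, 1;
  0, 1, 0, 0, 0, 0, 0;
  0, 0, 1, 0, 0, 0, 0;
  0, 0, 0, 1, 0, 0, 0]

/-- Twice the inverse of the Gram matrix. -/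
def Cm (K : Type*) [Field K] : M7 K := !![
  1, 0, 0, 0, 0, 0, 0;
  0, 0, 0, 0, 2, 0, 0;
  0, 0, 0, 0, 0, 2, 0;
  0, 0, 0, 0, 0, 0, 2;
  0, 2, 0, 0, 0, 0, 0;
  0, 0, 2, 0, 0, 0, 0;
  0, 0, 0, 2, 0, 0, 0]

theorem Bm_Cm : Bm K * Cm K = (2 : K) • (1 : M7 K) := by
  ext i j
  fin_cases i <;> fin_cases j <;> simp [Bm, Cm, Matrix.mul_apply, Fin.sum_univ_succ]

theorem Cm_Bm : Cm K * Bm K = (2 : K) • (1 : M7 K) := by
  ext i j
  fin_cases i <;> fin_cases j <;> simp [Bm, Cm, Matrix.mul_apply, Fin.sum_univ_succ]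

theorem bb_eq (x y : V7 K) : bb x y = x ⬝ᵥ (Bm K *ᵥ y) := by
  simp [bb, Bm, Matrix.mulVec, dotProduct, Fin.sum_univ_succ]
  ring

theorem tau_eq (A : M7 K) :
    tau A = ∑ p, ∑ q, Cm K p q • br (A *ᵥ ee p) (ee q) := by
  simp only [Fin.sum_univ_seven]
  simp only [Cm, tau]
  simp [Matrix.of_apply, smul_add, add_assoc]

theorem eq_of_bilin {M N : M7 K} (h : ∀ x y : V7 K, x ⬝ᵥ (M *ᵥ y) = x ⬝ᵥ (N *ᵥ y)) : M = N := by
  ext i j
  have := h (Pi.single i 1) (Pi.single j 1)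
  simpa using this

/-- The bilinear map `(x, y) ↦ br (A x) y`. -/
def bil (A : M7 K) : V7 K →ₗ[K] V7 K →ₗ[K] V7 K :=
  LinearMap.mk₂ K (fun x y => br (A *ᵥ x) y)
    (fun x y z => by rw [mulVec_add, br_add_left])
    (fun c x y => by rw [mulVec_smul, br_smul_left])
    (fun x y z => by rw [br_add_right])
    (fun c x y => by rw [br_smul_right])

theorem bil_apply (A : M7 K) (x y : V7 K) : bil A x y = br (A *ᵥ x) y := rfl

theorem mulVec_ee (h : M7 K) (p : Fin 7) : h *ᵥ ee p = ∑ r, h r p • (ee r : V7 K) := by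
  funext i
  simp [ee, Finset.sum_apply, Pi.single_apply]

/-- The contraction with a tensor. -/
def con (A M : M7 K) : V7 K := ∑ r, ∑ s, M r s • bil A (ee r) (ee s)

theorem tau_con (A : M7 K) : tau A = con A (Cm K) := by
  rw [tau_eq]
  rfl

theorem con_mul (A h k M : M7 K) :
    (∑ p, ∑ q, M p q • bil A (h *ᵥ ee p) (k *ᵥ ee q)) = con A (h * M * kᵀ) := by
  have e : ∀ p q, bil A (h *ᵥ ee p) (k *ᵥ ee q) =
      ∑ r, ∑ s, (h r p * k s q) • bil A (ee r) (ee s) := by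
    intro p q
    rw [mulVec_ee h p, mulVec_ee k q, map_sum (bil A), LinearMap.sum_apply]
    refine Finset.sum_congr rfl fun r _ => ?_
    rw [map_sum (bil A (h r p • ee r))]
    refine Finset.sum_congr rfl fun s _ => ?_
    rw [map_smul, map_smul, LinearMap.smul_apply, smul_smul, mul_comm]
  simp only [e, Finset.smul_sum, smul_smul]
  have e2 : ∀ r s, (h * M * kᵀ) r s = ∑ p, ∑ q, M p q * (h r p * k s q) := by
    intro r s
    rw [Matrix.mul_apply]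
    simp only [Matrix.mul_apply, Matrix.transpose_apply, Finset.sum_mul]
    rw [Finset.sum_comm]
    refine Finset.sum_congr rfl fun p _ => Finset.sum_congr rfl fun q _ => by ring
  simp only [con, e2, Finset.sum_smul]
  calc (∑ p, ∑ q, ∑ r, ∑ s, (M p q * (h r p * k s q)) • bil A (ee r) (ee s))
      = ∑ p, ∑ r, ∑ q, ∑ s, (M p q * (h r p * k s q)) • bil A (ee r) (ee s) :=
        Finset.sum_congr rfl fun p _ => Finset.sum_comm
    _ = ∑ r, ∑ p, ∑ q, ∑ s, (M p q * (h r p * k s q)) • bil A (ee r) (ee s) :=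
        Finset.sum_comm
    _ = ∑ r, ∑ p, ∑ s, ∑ q, (M p q * (h r p * k s q)) • bil A (ee r) (ee s) :=
        Finset.sum_congr rfl fun r _ => Finset.sum_congr rfl fun p _ => Finset.sum_comm
    _ = ∑ r, ∑ s, ∑ p, ∑ q, (M p q * (h r p * k s q)) • bil A (ee r) (ee s) :=
        Finset.sum_congr rfl fun r _ => Finset.sum_comm

variable [CharZero K]

theorem con_orth {h g : M7 K} (h1 : h * g = 1)
    (hb : ∀ x y : V7 K, bb (h *ᵥ x) (h *ᵥ y) = bb x y) : h * Cm K * hᵀ = Cm K := by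
  have e1 : hᵀ * Bm K * h = Bm K := by
    apply eq_of_bilin
    intro x y
    rw [← bb_eq, ← hb x y, bb_eq, ← mulVec_mulVec, ← mulVec_mulVec, Matrix.dotProduct_mulVec x hᵀ,
      Matrix.vecMul_transpose]
  have e2 : (2 : K) • (h * Cm K * hᵀ) = (2 : K) • Cm K := by
    calc (2 : K) • (h * Cm K * hᵀ) = h * Cm K * hᵀ * ((2 : K) • (1 : M7 K)) := by simp
      _ = h * Cm K * hᵀ * (Bm K * Cm K) := by rw [Bm_Cm]
      _ = h * Cm K * (hᵀ * Bm K * (h * g)) * Cm K := by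
        rw [h1]; simp only [Matrix.mul_assoc, Matrix.mul_one]
      _ = h * Cm K * (hᵀ * Bm K * h) * g * Cm K := by simp only [Matrix.mul_assoc]
      _ = h * (Cm K * Bm K) * g * Cm K := by rw [e1]; simp only [Matrix.mul_assoc]
      _ = (2 : K) • (h * g * Cm K) := by rw [Cm_Bm]; simp [Matrix.mul_assoc]
      _ = (2 : K) • Cm K := by rw [h1, Matrix.one_mul]
  have h2 : (2 : K) ≠ 0 := two_ne_zero
  exact smul_right_injective _ h2 e2

theorem con_skew {X : M7 K} (hb : ∀ x y : V7 K, bb (X *ᵥ x) y + bb x (X *ᵥ y) = 0) :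
    X * Cm K = -(Cm K * Xᵀ) := by
  have e1 : Xᵀ * Bm K = -(Bm K * X) := by
    apply eq_of_bilin
    intro x y
    have := hb x y
    rw [bb_eq, bb_eq] at this
    rw [← mulVec_mulVec, Matrix.dotProduct_mulVec x Xᵀ, Matrix.vecMul_transpose, neg_mulVec,
      dotProduct_neg, ← mulVec_mulVec]
    linear_combination this
  have h2 : (2 : K) ≠ 0 := two_ne_zero
  apply smul_right_injective _ h2
  calc (2 : K) • (X * Cm K) = ((2 : K) • (1 : M7 K)) * (X * Cm K) := by simp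
    _ = Cm K * (Bm K * X) * Cm K := by rw [← Cm_Bm]; simp only [Matrix.mul_assoc]
    _ = -(Cm K * Xᵀ * (Bm K * Cm K)) := by
      rw [← neg_eq_iff_eq_neg.mpr e1]
      simp only [Matrix.mul_assoc, Matrix.mul_neg, Matrix.neg_mul]
    _ = (2 : K) • -(Cm K * Xᵀ) := by rw [Bm_Cm]; simp

theorem tau_conj {g h : M7 K} (H : IsG g h)
    (hb : ∀ x y : V7 K, bb (h *ᵥ x) (h *ᵥ y) = bb x y) (A : M7 K) :
    tau (g * A * h) = g *ᵥ tau A := by
  have e : ∀ p q, bil (g * A * h) (ee p) (ee q) = g *ᵥ bil A (h *ᵥ ee p) (h *ᵥ ee q) := by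
    intro p q
    rw [bil_apply, bil_apply, H.2.2, mulVec_mulVec, mulVec_mulVec, mulVec_mulVec, H.1, one_mulVec,
      Matrix.mul_assoc]
  calc tau (g * A * h) = ∑ p, ∑ q, Cm K p q • bil (g * A * h) (ee p) (ee q) := tau_con _
    _ = g *ᵥ ∑ p, ∑ q, Cm K p q • bil A (h *ᵥ ee p) (h *ᵥ ee q) := by
      simp only [e, Matrix.mulVec_sum, mulVec_smul]
    _ = g *ᵥ tau A := by rw [con_mul, con_orth H.2.1 hb, tau_con]

theorem tau_der {X : M7 K} (hX : X ∈ g2 K)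
    (hb : ∀ x y : V7 K, bb (X *ᵥ x) y + bb x (X *ᵥ y) = 0) (A : M7 K) :
    tau (X * A - A * X) = X *ᵥ tau A := by
  have e : ∀ p q, bil (X * A - A * X) (ee p) (ee q) =
      X *ᵥ bil A (ee p) (ee q) - bil A (ee p) (X *ᵥ ee q) - bil A (X *ᵥ ee p) (ee q) := by
    intro p q
    have hs : ∀ x y z : V7 K, br (x - y) z = br x z - br y z := by
      intro x y z
      rw [sub_eq_add_neg, br_add_left, ← neg_one_smul K y, br_smul_left, neg_one_smul,
        ← sub_eq_add_neg]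
    rw [bil_apply, bil_apply, bil_apply, bil_apply, hX, sub_mulVec, hs, mulVec_mulVec,
      mulVec_mulVec]
    abel
  have h1 : (∑ p, ∑ q, Cm K p q • bil A (ee p) (X *ᵥ ee q)) = con A (Cm K * Xᵀ) := by
    have := con_mul A 1 X (Cm K)
    simpa using this
  have h2 : (∑ p, ∑ q, Cm K p q • bil A (X *ᵥ ee p) (ee q)) = con A (X * Cm K) := by
    have := con_mul A X 1 (Cm K)
    simpa using this
  have h3 : con A (X * Cm K) = -con A (Cm K * Xᵀ) := by
    rw [con_skew hb]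
    simp only [con, Matrix.neg_apply, neg_smul, Finset.sum_neg_distrib]
  calc tau (X * A - A * X) = ∑ p, ∑ q, Cm K p q • bil (X * A - A * X) (ee p) (ee q) := tau_con _
    _ = X *ᵥ con A (Cm K) - con A (Cm K * Xᵀ) - con A (X * Cm K) := by
      rw [← h1, ← h2]
      simp only [e, con, smul_sub, Finset.sum_sub_distrib, Matrix.mulVec_sum, mulVec_smul]
    _ = X *ᵥ tau A := by rw [h3, tau_con]; abel

theorem tau_surj (hP : PARAM_S K) (v : V7 K) : ∃ x y z : g2 K, tau (x.1 * y.1 * z.1) = v := by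
  have hg : ∀ f : Fin 14 → K, gM f ∈ g2 K := fun f => (hP _).2 ⟨f, rfl⟩
  refine ⟨⟨_, hg ![1, 0, 0, 0, 0, 0, 0, 0, 0, 0, 1, 0, 0, 0]⟩,
    ⟨_, hg ![0, 1, 0, 0, 0, 0, 0, 0, 0, 0, 0, 1, 0, 0]⟩,
    ⟨_, hg ![(-v 0 - v 1 / 2 + v 6 / 2) / 4, 0, v 5 / 4, v 1 / 4, 0, 0, 0, 0, 0,
      (v 2 - 2 * v 6) / 4, -v 3 / 4 - (-v 0 - v 1 / 2 + v 6 / 2) / 4,
      -(v 4 + 2 * (v 2 - 2 * v 6) + v 6) / 4, 0, v 6 / 4]⟩, ?_⟩
  have h2 : (2 : K) ≠ 0 := two_ne_zero
  funext i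
  fin_cases i <;>
    simp [tau, ee, gM, br] <;> ring

end gen

/-- TAU. -/
theorem tau (K : Type*) [Field K] [CharZero K] (hP : PARAM_S K) (hD : DER_S K) : TAU_S K :=
  ⟨fun g h H A => tau_conj H (hD.2.2.2.1 h g H.symm) A,
    fun X hX A => tau_der hX (hD.2.2.2.2.1 X hX) A, tau_surj hP⟩

end Pool.Agent.Lib.MP_d55432_al.G2.H19
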